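import Mathlib

set_option autoImplicit false

namespace Pool.Agent.H.MP_7de521_nt

open Filter Topology

/-- Small elements of a closed subgroup of a finite-dimensional real space lie on lines inside it. -/
theorem small_line {E : Type*} [NormedAddCommGroup E] [NormedSpace ℝ E] [FiniteDimensional ℝ E]
    (A : AddSubgroup E) (hA : IsClosed (A : Set E)) :
    ∃ ε > 0, ∀ z ∈ A, ‖z‖ < ε → ∀ t : ℝ, t • z ∈ A := by
  let W : Submodule ℝ E :=
    { carrier := {z | ∀ t : ℝ, t • z ∈ A}
      add_mem' := by
        intro a b ha hb t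
        rw [smul_add]
        exact A.add_mem (ha t) (hb t)
      zero_mem' := by
        intro t
        rw [smul_zero]
        exact A.zero_mem
      smul_mem' := by
        intro c x hx t
        rw [smul_smul]
        exact hx _ }
  obtain ⟨W', hW⟩ := Submodule.exists_isCompl W
  have hδ : ∃ δ > 0, ∀ z ∈ A, z ∈ W' → ‖z‖ < δ → z = 0 := by
    by_contra hcon
    push Not at hcon
    have h1 : ∀ n : ℕ, ∃ z ∈ A, z ∈ W' ∧ ‖z‖ < 1 / ((n : ℝ) + 1) ∧ z ≠ 0 := fun n =>
      hcon _ (by positivity)
    choose z hzA hzW hzn hz0 using h1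
    have hpos : ∀ n, 0 < ‖z n‖ := fun n => norm_pos_iff.mpr (hz0 n)
    let u : ℕ → E := fun n => (‖z n‖)⁻¹ • z n
    have hu : ∀ n, u n ∈ Metric.sphere (0 : E) 1 := by
      intro n
      simp only [u, mem_sphere_iff_norm, sub_zero, norm_smul, norm_inv, norm_norm]
      exact inv_mul_cancel₀ (hpos n).ne'
    obtain ⟨v, hv, φ, hφ, hlim⟩ := (isCompact_sphere (0 : E) 1).tendsto_subseq hu
    have hvW' : v ∈ W' := by
      have hc : IsClosed (W' : Set E) := W'.closed_of_finiteDimensional
      exact hc.mem_of_tendsto hlim (Eventually.of_forall fun n => W'.smul_mem _ (hzW _))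
    have hz : Tendsto (fun n => ‖z (φ n)‖) atTop (𝓝 0) := by
      have h2 : Tendsto (fun n => ‖z n‖) atTop (𝓝 0) :=
        squeeze_zero (fun n => norm_nonneg _) (fun n => (hzn n).le)
          tendsto_one_div_add_atTop_nhds_zero_nat
      exact h2.comp hφ.tendsto_atTop
    have hvW : v ∈ W := by
      intro t
      have h3 : Tendsto (fun n => (⌊t / ‖z (φ n)‖⌋ : ℝ) * ‖z (φ n)‖) atTop (𝓝 t) := by
        have h4 : Tendsto (fun n => t - ‖z (φ n)‖) atTop (𝓝 t) := by
          simpa using hz.const_sub t
        refine tendsto_of_tendsto_of_tendsto_of_le_of_le h4 tendsto_const_nhds ?_ ?_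
        · intro n
          have h5 := Int.lt_floor_add_one (t / ‖z (φ n)‖)
          have h6 := hpos (φ n)
          rw [div_lt_iff₀ h6] at h5
          simp only
          linarith
        · intro n
          have h5 := Int.floor_le (t / ‖z (φ n)‖)
          have h6 := hpos (φ n)
          rw [le_div_iff₀ h6] at h5
          exact h5
      have h7 := h3.smul hlim
      refine hA.mem_of_tendsto h7 (Eventually.of_forall fun n => ?_)
      have h8 : ((⌊t / ‖z (φ n)‖⌋ : ℝ) * ‖z (φ n)‖) • (u ∘ φ) n = ⌊t / ‖z (φ n)‖⌋ • z (φ n) := by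
        simp only [u, Function.comp, smul_smul]
        rw [mul_assoc, mul_inv_cancel₀ (hpos _).ne', mul_one, Int.cast_smul_eq_zsmul]
      rw [h8]
      exact A.zsmul_mem (hzA _) _
    have h0 : v = 0 := by
      have := hW.disjoint
      rw [Submodule.disjoint_def] at this
      exact this v hvW hvW'
    simp [h0] at hv
  obtain ⟨δ, hδ0, hδ⟩ := hδ
  let p : E →ₗ[ℝ] E := W'.subtype ∘ₗ Submodule.projectionOnto W' W hW.symm
  have hp : Continuous p := p.continuous_of_finiteDimensional
  have hp0 : ContinuousAt p 0 := hp.continuousAt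
  rw [Metric.continuousAt_iff] at hp0
  obtain ⟨ε, hε, h⟩ := hp0 δ hδ0
  refine ⟨ε, hε, fun z hz hn => ?_⟩
  obtain ⟨a, ha, b, hb, rfl⟩ := Submodule.mem_sup.mp (show z ∈ W ⊔ W' by rw [hW.sup_eq_top]; trivial)
  have hpb : p (a + b) = b := by
    simp only [p, LinearMap.comp_apply, map_add]
    rw [Submodule.projectionOnto_apply_of_mem_right hW.symm ha,
      Submodule.projectionOnto_apply_of_mem_left hW.symm hb]
    simp
  have hbA : b ∈ A := by
    have h1 : a ∈ A := by simpa using ha 1
    simpa using A.sub_mem hz h1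
  have h2 := @h (a + b) (by simpa using hn)
  rw [hpb] at h2
  have hb0 : b = 0 := hδ b hbA hb (by simpa using h2)
  subst hb0
  rw [add_zero]
  exact ha

end Pool.Agent.H.MP_7de521_nt
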