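import Mathlib
import Pool.Agent.H.MP_7de521_nt.Lie

set_option autoImplicit false
set_option linter.unusedSectionVars false

namespace Pool.Agent.H.MP_7de521_nt

open Filter Topology

variable {I J : Type} [Fintype I] [Fintype J]

/-- monomial characters in the complex coordinates and their conjugates -/
noncomputable def chi (p : (J → ℕ) × (J → ℕ)) (x : (I → ℝ) × (J → ℂ)) : ℂ :=
  ∏ w, (x.2 w ^ p.1 w * (starRingEnd ℂ) (x.2 w) ^ p.2 w)

theorem chi_mul_left (p q : (J → ℕ) × (J → ℕ)) (x : (I → ℝ) × (J → ℂ)) :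
    chi (p + q) x = chi p x * chi q x := by
  simp only [chi, ← Finset.prod_mul_distrib, Prod.fst_add, Prod.snd_add, Pi.add_apply, pow_add]
  refine Finset.prod_congr rfl fun w _ => by ring

theorem chi_mul (p : (J → ℕ) × (J → ℕ)) (x y : (I → ℝ) × (J → ℂ)) :
    chi p (x * y) = chi p x * chi p y := by
  simp only [chi, ← Finset.prod_mul_distrib, Prod.snd_mul, Pi.mul_apply, map_mul, mul_pow]
  refine Finset.prod_congr rfl fun w _ => by ring

theorem chi_one (p : (J → ℕ) × (J → ℕ)) : chi p (1 : (I → ℝ) × (J → ℂ)) = 1 := by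
  simp [chi]

/-- span of the characters -/
noncomputable def SP (I J : Type) [Fintype I] [Fintype J] :
    Submodule ℂ (((I → ℝ) × (J → ℂ)) → ℂ) :=
  Submodule.span ℂ (Set.range (fun p : (J → ℕ) × (J → ℕ) => chi (I := I) p))

theorem SP_mul {f g : ((I → ℝ) × (J → ℂ)) → ℂ} (hf : f ∈ SP I J) (hg : g ∈ SP I J) :
    f * g ∈ SP I J := by
  induction hf using Submodule.span_induction with
  | mem f h =>
    obtain ⟨p, rfl⟩ := h
    induction hg using Submodule.span_induction with
    | mem g h =>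
      obtain ⟨q, rfl⟩ := h
      refine Submodule.subset_span ⟨p + q, ?_⟩
      funext x
      simp [chi_mul_left]
    | zero => simp
    | add a b _ _ ha hb => rw [mul_add]; exact Submodule.add_mem _ ha hb
    | smul c a _ ha => rw [mul_smul_comm]; exact Submodule.smul_mem _ _ ha
  | zero => simp
  | add a b _ _ ha hb => rw [add_mul]; exact Submodule.add_mem _ ha hb
  | smul c a _ ha => rw [smul_mul_assoc]; exact Submodule.smul_mem _ _ ha

theorem SP_one : (1 : ((I → ℝ) × (J → ℂ)) → ℂ) ∈ SP I J := by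
  refine Submodule.subset_span ⟨0, ?_⟩
  funext x
  simp [chi]

theorem SP_coord (w : J) : (fun x : (I → ℝ) × (J → ℂ) => x.2 w) ∈ SP I J := by
  classical
  refine Submodule.subset_span ⟨(Pi.single w 1, 0), ?_⟩
  funext x
  simp only [chi, Pi.zero_apply, pow_zero, mul_one]
  rw [Finset.prod_eq_single w]
  · simp
  · intro b _ hb
    simp [Pi.single_eq_of_ne hb]
  · simp

theorem SP_conj (w : J) :
    (fun x : (I → ℝ) × (J → ℂ) => (starRingEnd ℂ) (x.2 w)) ∈ SP I J := by
  classical
  refine Submodule.subset_span ⟨(0, Pi.single w 1), ?_⟩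
  funext x
  simp only [chi, Pi.zero_apply, pow_zero, one_mul]
  rw [Finset.prod_eq_single w]
  · simp
  · intro b _ hb
    simp [Pi.single_eq_of_ne hb]
  · simp

theorem SP_lin [IsEmpty I] (l : ((I → ℝ) × (J → ℂ)) →ₗ[ℝ] ℝ) :
    (fun x : (I → ℝ) × (J → ℂ) => ((l x : ℝ) : ℂ)) ∈ SP I J := by
  classical
  have hre : ∀ w, (fun x : (I → ℝ) × (J → ℂ) => (((x.2 w).re : ℝ) : ℂ)) ∈ SP I J := by
    intro w
    have : (fun x : (I → ℝ) × (J → ℂ) => (((x.2 w).re : ℝ) : ℂ)) =
        (1 / 2 : ℂ) • ((fun x : (I → ℝ) × (J → ℂ) => x.2 w) +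
          (fun x : (I → ℝ) × (J → ℂ) => (starRingEnd ℂ) (x.2 w))) := by
      funext x
      simp only [Pi.smul_apply, Pi.add_apply, Complex.add_conj, smul_eq_mul]
      push_cast
      ring
    rw [this]
    exact Submodule.smul_mem _ _ (Submodule.add_mem _ (SP_coord w) (SP_conj w))
  have him : ∀ w, (fun x : (I → ℝ) × (J → ℂ) => (((x.2 w).im : ℝ) : ℂ)) ∈ SP I J := by
    intro w
    have : (fun x : (I → ℝ) × (J → ℂ) => (((x.2 w).im : ℝ) : ℂ)) =
        (-Complex.I / 2 : ℂ) • ((fun x : (I → ℝ) × (J → ℂ) => x.2 w) -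
          (fun x : (I → ℝ) × (J → ℂ) => (starRingEnd ℂ) (x.2 w))) := by
      funext x
      simp only [Pi.smul_apply, Pi.sub_apply, Complex.sub_conj, smul_eq_mul]
      push_cast
      linear_combination ((x.2 w).im : ℂ) * Complex.I_mul_I
    rw [this]
    exact Submodule.smul_mem _ _ (Submodule.sub_mem _ (SP_coord w) (SP_conj w))
  have hdec : ∀ x : (I → ℝ) × (J → ℂ), x = ∑ w, ((x.2 w).re • ((0, Pi.single w 1) : (I → ℝ) × (J → ℂ))
      + (x.2 w).im • ((0, Pi.single w Complex.I) : (I → ℝ) × (J → ℂ))) := by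
    intro x
    refine Prod.ext (Subsingleton.elim _ _) ?_
    funext v
    simp only [Prod.snd_sum, Prod.snd_add, Prod.smul_snd, Finset.sum_apply, Pi.add_apply,
      Pi.smul_apply]
    rw [Finset.sum_eq_single v]
    · simp
    · intro b _ hb
      simp [Pi.single_eq_of_ne hb.symm]
    · simp
  have : (fun x : (I → ℝ) × (J → ℂ) => ((l x : ℝ) : ℂ)) =
      ∑ w, (((l (0, Pi.single w 1) : ℝ) : ℂ) • (fun x : (I → ℝ) × (J → ℂ) => (((x.2 w).re : ℝ) : ℂ))
        + ((l (0, Pi.single w Complex.I) : ℝ) : ℂ) •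
          (fun x : (I → ℝ) × (J → ℂ) => (((x.2 w).im : ℝ) : ℂ))) := by
    funext x
    conv_lhs => rw [hdec x]
    simp only [map_sum, map_add, map_smul, smul_eq_mul, Finset.sum_apply, Pi.add_apply,
      Pi.smul_apply]
    push_cast
    refine Finset.sum_congr rfl fun w _ => by ring
  rw [this]
  exact Submodule.sum_mem _ fun w _ =>
    Submodule.add_mem _ (Submodule.smul_mem _ _ (hre w)) (Submodule.smul_mem _ _ (him w))

theorem SP_poly [IsEmpty I] {ι : Type} (b : Module.Basis ι ℝ ((I → ℝ) × (J → ℂ)))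
    (P : MvPolynomial ι ℝ) :
    (fun x : (I → ℝ) × (J → ℂ) => ((MvPolynomial.eval (fun i => b.repr x i) P : ℝ) : ℂ))
      ∈ SP I J := by
  induction P using MvPolynomial.induction_on with
  | C a =>
    have : (fun x : (I → ℝ) × (J → ℂ) =>
        ((MvPolynomial.eval (fun i => b.repr x i) (MvPolynomial.C a) : ℝ) : ℂ)) =
        (a : ℂ) • (1 : ((I → ℝ) × (J → ℂ)) → ℂ) := by
      funext x
      simp
    rw [this]
    exact Submodule.smul_mem _ _ SP_one
  | add p q hp hq =>
    have := Submodule.add_mem _ hp hq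
    convert this using 1
    funext x
    simp
  | mul_X p i hp =>
    have := SP_mul hp (SP_lin (b.coord i))
    convert this using 1
    funext x
    simp

/-- A function in the span of characters that vanishes on a group `H` vanishes at any point at
which characters agreeing on `H` agree. -/
theorem SP_vanish (H : Subgroup ((I → ℝ) × (J → ℂ))ˣ) (y : (I → ℝ) × (J → ℂ))
    (hy : ∀ p q : (J → ℕ) × (J → ℕ), (∀ h ∈ H, chi p h.val = chi q h.val) → chi p y = chi q y)
    {f : ((I → ℝ) × (J → ℂ)) → ℂ} (hf : f ∈ SP I J) (h0 : ∀ h ∈ H, f h.val = 0) : f y = 0 := by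
  classical
  obtain ⟨c, rfl⟩ := Finsupp.mem_span_range_iff_exists_finsupp.mp hf
  let κ : (J → ℕ) × (J → ℕ) → (H →* ℂ) := fun p =>
    { toFun := fun h => chi p h.val.val
      map_one' := by simp [chi_one]
      map_mul' := by intro a b; simp [chi_mul] }
  let val : (H →* ℂ) → ℂ := fun φ => if h : ∃ p, κ p = φ then chi h.choose y else 0
  have hval : ∀ p, val (κ p) = chi p y := by
    intro p
    have h : ∃ q, κ q = κ p := ⟨p, rfl⟩
    simp only [val, dif_pos h]
    refine hy _ _ fun g hg => ?_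
    have := congrArg (fun φ : H →* ℂ => φ ⟨g, hg⟩) h.choose_spec
    exact this
  have hli := linearIndependent_monoidHom H ℂ
  rw [linearIndependent_iff] at hli
  have hc : Finsupp.mapDomain κ c = 0 := by
    apply hli
    rw [Finsupp.linearCombination_mapDomain, Finsupp.linearCombination_apply]
    funext h
    have := h0 h.val h.prop
    simp only [Finsupp.sum, Finset.sum_apply, Pi.smul_apply, Function.comp] at this ⊢
    exact this
  have h1 := Finsupp.linearCombination_mapDomain ℂ (v' := val) κ c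
  rw [hc, map_zero, Finsupp.linearCombination_apply] at h1
  simp only [Finsupp.sum, Finset.sum_apply, Pi.smul_apply, Function.comp, hval] at h1 ⊢
  exact h1.symm

end Pool.Agent.H.MP_7de521_nt
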