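import Mathlib
import Pool.Agent.H.MP_7de521_nt.Zar

set_option autoImplicit false
set_option linter.unusedSectionVars false

namespace Pool.Agent.H.MP_7de521_nt

open Filter Topology

variable {I J : Type}

/-- logarithms of the absolute values of the complex coordinates -/
noncomputable def lg (x : ((I → ℝ) × (J → ℂ))ˣ) : J → ℝ := fun w => Real.log ‖x.val.2 w‖

theorem coord_ne (x : ((I → ℝ) × (J → ℂ))ˣ) (w : J) : x.val.2 w ≠ 0 := by
  intro h
  have := congrArg (fun z : (I → ℝ) × (J → ℂ) => z.2 w) x.val_inv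
  simp only [Prod.snd_mul, Pi.mul_apply, h, zero_mul, Prod.snd_one, Pi.one_apply] at this
  exact zero_ne_one this

theorem lg_mul (x y : ((I → ℝ) × (J → ℂ))ˣ) : lg (x * y) = lg x + lg y := by
  funext w
  simp only [lg, Units.val_mul, Prod.snd_mul, Pi.mul_apply, norm_mul, Pi.add_apply]
  exact Real.log_mul (norm_ne_zero_iff.mpr (coord_ne x w)) (norm_ne_zero_iff.mpr (coord_ne y w))

theorem lg_one : lg (1 : ((I → ℝ) × (J → ℂ))ˣ) = 0 := by
  funext w
  simp [lg]

/-- the logarithm map as a homomorphism -/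
noncomputable def lgH : ((I → ℝ) × (J → ℂ))ˣ →* Multiplicative (J → ℝ) where
  toFun x := Multiplicative.ofAdd (lg x)
  map_one' := by rw [lg_one]; rfl
  map_mul' x y := by rw [lg_mul]; rfl

theorem lg_zpow (x : ((I → ℝ) × (J → ℂ))ˣ) (k : ℤ) : lg (x ^ k) = (k : ℝ) • lg x := by
  have := congrArg Multiplicative.toAdd (map_zpow (lgH (I := I) (J := J)) x k)
  simpa [lgH, Int.cast_smul_eq_zsmul] using this

theorem lg_inv (x : ((I → ℝ) × (J → ℂ))ˣ) : lg x⁻¹ = - lg x := by
  simpa using lg_zpow x (-1)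

theorem lg_cont (w : J) : Continuous fun x : ((I → ℝ) × (J → ℂ))ˣ => lg x w := by
  refine Continuous.log ?_ fun x => norm_ne_zero_iff.mpr (coord_ne x w)
  exact ((continuous_apply w).comp (continuous_snd.comp Units.continuous_val)).norm

/-- the exponential map -/
noncomputable def ex (z : (I → ℝ) × (J → ℂ)) : ((I → ℝ) × (J → ℂ))ˣ where
  val := (fun i => Real.exp (z.1 i), fun w => Complex.exp (z.2 w))
  inv := (fun i => Real.exp (-z.1 i), fun w => Complex.exp (-z.2 w))
  val_inv := by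
    ext i
    · simp [← Real.exp_add]
    · simp [← Complex.exp_add]
  inv_val := by
    ext i
    · simp [← Real.exp_add]
    · simp [← Complex.exp_add]

theorem ex_add (z y : (I → ℝ) × (J → ℂ)) : ex (z + y) = ex z * ex y := by
  ext i
  · simp [ex, Real.exp_add]
  · simp [ex, Complex.exp_add]

theorem ex_zero : ex (0 : (I → ℝ) × (J → ℂ)) = 1 := by
  ext i
  · simp [ex]
  · simp [ex]

theorem ex_neg (z : (I → ℝ) × (J → ℂ)) : ex (-z) = (ex z)⁻¹ := by
  rw [eq_inv_iff_mul_eq_one, ← ex_add, neg_add_cancel, ex_zero]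

theorem ex_cont : Continuous (ex : (I → ℝ) × (J → ℂ) → _) := by
  rw [Units.continuous_iff]
  constructor
  · change Continuous fun z : (I → ℝ) × (J → ℂ) =>
      ((fun i => Real.exp (z.1 i), fun w => Complex.exp (z.2 w)) : (I → ℝ) × (J → ℂ))
    fun_prop
  · change Continuous fun z : (I → ℝ) × (J → ℂ) =>
      ((fun i => Real.exp (-z.1 i), fun w => Complex.exp (-z.2 w)) : (I → ℝ) × (J → ℂ))
    fun_prop

theorem lg_ex (z : (I → ℝ) × (J → ℂ)) (w : J) : lg (ex z) w = (z.2 w).re := by
  simp [lg, ex, Complex.norm_exp]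

variable [Fintype I] [Fintype J]

theorem norm_chi (p : (J → ℕ) × (J → ℕ)) (x : ((I → ℝ) × (J → ℂ))ˣ) :
    ‖chi p x.val‖ = Real.exp (∑ w, ((p.1 w + p.2 w : ℕ) : ℝ) * lg x w) := by
  simp only [chi, norm_prod, norm_mul, norm_pow, Real.exp_sum, lg, Complex.norm_conj]
  refine Finset.prod_congr rfl fun w _ => ?_
  rw [← pow_add, Real.exp_nat_mul, Real.exp_log (norm_pos_iff.mpr (coord_ne x w))]

theorem chi_ex_real (p : (J → ℕ) × (J → ℕ)) (u : J → ℝ) :
    chi p (ex ((0, fun w => (u w : ℂ)) : (I → ℝ) × (J → ℂ))).val =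
      (Real.exp (∑ w, ((p.1 w + p.2 w : ℕ) : ℝ) * u w) : ℝ) := by
  simp only [chi, ex, Real.exp_sum, Complex.ofReal_prod]
  refine Finset.prod_congr rfl fun w _ => ?_
  rw [← Complex.ofReal_exp, Complex.conj_ofReal, ← pow_add, Real.exp_nat_mul]
  push_cast
  rfl

theorem general [IsEmpty I] {m κ : Type} [Fintype m] [Fintype κ] (w : κ → J) (n : m → κ → ℤ)
    (r : m → ℝ) (hr : LinearIndependent ℚ r) (Λ : Subgroup ((I → ℝ) × (J → ℂ))ˣ)
    (h2 : ∀ x ∈ Λ, ∑ j, r j * ∑ k, (n j k : ℝ) * lg x (w k) = 0)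
    (x : ℕ → ((I → ℝ) × (J → ℂ))ˣ) (hx : ∀ i, x i ∈ Λ) (M : ℝ) (hM : ∀ i v, |lg (x i) v| ≤ M)
    (hne : ∀ i i', i ≠ i' → ∃ j, ∑ k, (n j k : ℝ) * lg (x i) (w k) ≠
      ∑ k, (n j k : ℝ) * lg (x i') (w k))
    {ι : Type} (b : Module.Basis ι ℝ ((I → ℝ) × (J → ℂ))) (S : Set (MvPolynomial ι ℝ))
    (B : Subgroup ((I → ℝ) × (J → ℂ))ˣ)
    (hB : ∀ y, y ∈ B ↔ ∀ P ∈ S, MvPolynomial.eval (fun i => b.repr y.val i) P = 0) :
    ¬ ((Subgroup.connectedComponentOfOne Λ.topologicalClosure).map Λ.topologicalClosure.subtype ≤ B ∧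
      (((Subgroup.connectedComponentOfOne Λ.topologicalClosure).map
        Λ.topologicalClosure.subtype).subgroupOf B).FiniteIndex) := by
  set C := Λ.topologicalClosure with hC
  set H := (Subgroup.connectedComponentOfOne C).map C.subtype with hH
  rintro ⟨hle, hfin⟩
  have hCf : ∀ y ∈ C, ∑ j, r j * ∑ k, (n j k : ℝ) * lg y (w k) = 0 := by
    intro y hy
    have hcl : IsClosed {y : ((I → ℝ) × (J → ℂ))ˣ |
        ∑ j, r j * ∑ k, (n j k : ℝ) * lg y (w k) = 0} := by
      refine isClosed_eq ?_ continuous_const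
      refine continuous_finsetSum _ fun j _ => continuous_const.mul ?_
      exact continuous_finsetSum _ fun k _ => continuous_const.mul (lg_cont _)
    have hy' : y ∈ closure (Λ : Set ((I → ℝ) × (J → ℂ))ˣ) := by
      rw [← Subgroup.topologicalClosure_coe]
      exact hy
    exact closure_minimal (fun z hz => h2 z hz) hcl hy'
  have hHC : ∀ h ∈ H, h ∈ C := by
    rintro h ⟨g, _, rfl⟩
    exact g.prop
  -- an element of the identity component with nonzero logarithmic part
  have key : ∃ h ∈ H, ∃ j, ∑ k, (n j k : ℝ) * lg h (w k) ≠ 0 := by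
    let A : AddSubgroup ((I → ℝ) × (J → ℂ)) :=
      { carrier := {z | ex z ∈ C}
        add_mem' := by
          intro a b ha hb
          show ex (a + b) ∈ C
          rw [ex_add]
          exact C.mul_mem ha hb
        zero_mem' := by
          show ex 0 ∈ C
          rw [ex_zero]
          exact C.one_mem
        neg_mem' := by
          intro a ha
          show ex (-a) ∈ C
          rw [ex_neg]
          exact C.inv_mem ha }
    have hA : IsClosed (A : Set ((I → ℝ) × (J → ℂ))) :=
      (Subgroup.isClosed_topologicalClosure Λ).preimage ex_cont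
    obtain ⟨ε, hε, hsm⟩ := small_line A hA
    let z : ℕ → (I → ℝ) × (J → ℂ) := fun i => (0, fun v => Complex.log ((x i).val.2 v))
    have hz : ∀ i, ex (z i) = x i := by
      intro i
      apply Units.ext
      refine Prod.ext (Subsingleton.elim _ _) ?_
      funext v
      simp only [ex, z]
      exact Complex.exp_log (coord_ne _ _)
    have hbd : ∀ i, z i ∈ Metric.closedBall (0 : (I → ℝ) × (J → ℂ)) (|M| + Real.pi) := by
      intro i
      rw [mem_closedBall_zero_iff, Prod.norm_def]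
      have hp : 0 ≤ |M| + Real.pi := by positivity
      refine max_le (by simpa [z] using hp) ?_
      refine (pi_norm_le_iff_of_nonneg hp).mpr fun v => ?_
      refine (Complex.norm_le_abs_re_add_abs_im _).trans (add_le_add ?_ ?_)
      · simp only [z, Complex.log_re]
        exact (hM i v).trans (le_abs_self M)
      · simp only [z, Complex.log_im]
        exact Complex.abs_arg_le_pi _
    obtain ⟨a, -, φ, hφ, hlim⟩ := (isCompact_closedBall _ _).tendsto_subseq hbd
    obtain ⟨N, hN⟩ := Metric.cauchySeq_iff'.mp hlim.cauchySeq ε hε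
    have hd := hN (N + 1) (Nat.le_succ N)
    rw [dist_eq_norm] at hd
    simp only [Function.comp] at hd
    have hzA : ∀ i, z i ∈ A := fun i => by
      show ex (z i) ∈ C
      rw [hz]
      exact Subgroup.le_topologicalClosure Λ (hx i)
    have hline := hsm _ (A.sub_mem (hzA _) (hzA _)) hd
    set d := z (φ (N + 1)) - z (φ N) with hdd
    let path : ℝ → C := fun t => ⟨ex (t • d), hline t⟩
    have hpath : Continuous path :=
      Continuous.subtype_mk (ex_cont.comp (continuous_id.smul continuous_const)) _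
    have hconn : IsPreconnected (Set.range path) := isPreconnected_range hpath
    have h1 : (1 : C) ∈ Set.range path := ⟨0, Subtype.ext (by simp [path, ex_zero])⟩
    have hsub := hconn.subset_connectedComponent h1
    refine ⟨ex d, ⟨path 1, hsub ⟨1, rfl⟩, by simp [path]⟩, ?_⟩
    obtain ⟨j, hj⟩ := hne (φ (N + 1)) (φ N) (hφ (Nat.lt_succ_self N)).ne'
    refine ⟨j, fun h => hj ?_⟩
    rw [hdd, sub_eq_add_neg, ex_add, ex_neg, hz, hz, lg_mul, lg_inv] at h
    simp only [Pi.add_apply, Pi.neg_apply, mul_add, mul_neg, Finset.sum_add_distrib,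
      Finset.sum_neg_distrib] at h
    linarith
  obtain ⟨h, hh, j0, hj0⟩ := key
  obtain ⟨ψ, hψ⟩ := Module.Projective.exists_dual_ne_zero ℚ hj0
  let u : J → ℝ := fun v => (ψ (lg h v) : ℝ)
  let y : ((I → ℝ) × (J → ℂ))ˣ := ex (0, fun v => (u v : ℂ))
  have hnat : ∀ c : J → ℕ, ∑ v, (c v : ℝ) * u v = (ψ (∑ v, (c v : ℝ) * lg h v) : ℝ) := by
    intro c
    simp only [u, map_sum, ← nsmul_eq_mul, map_nsmul]
    push_cast
    simp
  have hint : ∀ j, ∑ k, (n j k : ℝ) * lg y (w k) = (ψ (∑ k, (n j k : ℝ) * lg h (w k)) : ℝ) := by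
    intro j
    simp only [y, lg_ex, Complex.ofReal_re, u, map_sum, ← zsmul_eq_mul, map_zsmul]
    push_cast
    simp
  have hyB : y ∈ B := by
    rw [hB]
    intro P hP
    have := SP_vanish H y.val ?_ (SP_poly b P) ?_
    · exact_mod_cast this
    · intro p q hpq
      have e1 := congrArg norm (hpq h hh)
      rw [norm_chi, norm_chi, Real.exp_eq_exp] at e1
      simp only [y]
      rw [chi_ex_real, chi_ex_real, hnat (fun v => p.1 v + p.2 v), hnat (fun v => q.1 v + q.2 v), e1]
    · intro g hg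
      have := (hB g).mp (hle hg) P hP
      simp only [this, Complex.ofReal_zero]
  have hpow := Subgroup.pow_index_mem (H.subgroupOf B) ⟨y, hyB⟩
  rw [Subgroup.mem_subgroupOf] at hpow
  have e2 := hCf _ (hHC _ hpow)
  have hN : ((H.subgroupOf B).index : ℝ) ≠ 0 := by exact_mod_cast hfin.index_ne_zero
  simp only [SubgroupClass.coe_pow] at e2
  rw [← zpow_natCast, lg_zpow] at e2
  have e3 : ∑ j, r j * ∑ k, (n j k : ℝ) * lg y (w k) = 0 := by
    apply mul_left_cancel₀ hN
    rw [mul_zero, ← e2]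
    simp only [Finset.mul_sum, Pi.smul_apply, smul_eq_mul, Int.cast_natCast]
    refine Finset.sum_congr rfl fun j _ => Finset.sum_congr rfl fun k _ => by ring
  simp only [hint] at e3
  rw [Fintype.linearIndependent_iff] at hr
  refine hψ (hr (fun j => ψ (∑ k, (n j k : ℝ) * lg h (w k))) ?_ j0)
  rw [← e3]
  refine Finset.sum_congr rfl fun j _ => ?_
  rw [Rat.smul_def, mul_comm]

end Pool.Agent.H.MP_7de521_nt
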