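import Mathlib

set_option autoImplicit false

namespace Pool.Agent.H.MP_7de521_nt

open Polynomial

/-- the real sixth root of two -/
noncomputable def th : ℝ := (2 : ℝ) ^ ((1 : ℝ) / 6)

theorem th_pos : 0 < th := Real.rpow_pos_of_pos (by norm_num) _

theorem th_pow : th ^ 6 = 2 := by
  unfold th
  rw [← Real.rpow_natCast, ← Real.rpow_mul (by norm_num)]
  norm_num

theorem th_lt : th < 2 := by
  by_contra h
  push Not at h
  have := pow_le_pow_left₀ (by norm_num) h 6
  rw [th_pow] at this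
  norm_num at this

theorem monZ : (X ^ 6 - C 2 : ℤ[X]).Monic := monic_X_pow_sub_C _ (by norm_num)

theorem irrZ : Irreducible (X ^ 6 - C 2 : ℤ[X]) := by
  have hd : (X ^ 6 - C 2 : ℤ[X]).natDegree = 6 := natDegree_X_pow_sub_C
  have hp : (Ideal.span {(2 : ℤ)}).IsPrime := (Ideal.span_singleton_prime (by norm_num)).mpr Int.prime_two
  refine IsEisensteinAt.irreducible (𝓟 := Ideal.span {(2 : ℤ)}) ⟨?_, ?_, ?_⟩ hp monZ.isPrimitive
    (by rw [hd]; norm_num)
  · rw [monZ.leadingCoeff, Ideal.mem_span_singleton]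
    norm_num
  · intro n hn
    rw [hd] at hn
    rw [Ideal.mem_span_singleton, coeff_sub, coeff_X_pow, coeff_C]
    interval_cases n <;> simp
  · rw [Ideal.span_singleton_pow, Ideal.mem_span_singleton, coeff_sub, coeff_X_pow, coeff_C]
    norm_num

theorem mapZ : (X ^ 6 - C 2 : ℤ[X]).map (algebraMap ℤ ℚ) = (X ^ 6 - C 2 : ℚ[X]) := by
  simp only [Polynomial.map_sub, Polynomial.map_pow, map_X, map_C]
  rfl

theorem irrQ : Irreducible (X ^ 6 - C 2 : ℚ[X]) := by
  rw [← mapZ]
  exact (monZ.irreducible_iff_irreducible_map_fraction_map (K := ℚ)).mp irrZ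

theorem minpoly_th : minpoly ℚ th = X ^ 6 - C 2 := by
  symm
  refine minpoly.eq_of_irreducible_of_monic irrQ ?_ (monic_X_pow_sub_C _ (by norm_num))
  simp [th_pow]

theorem transfer {F : Type} [CommRing F] (r : F) (hr : r ^ 6 = 2) (Q : ℤ[X])
    (hQ : aeval th Q = 0) : aeval r Q = 0 := by
  have h1 : minpoly ℚ th ∣ Q.map (algebraMap ℤ ℚ) := by
    apply minpoly.dvd
    rw [aeval_map_algebraMap]
    exact hQ
  rw [minpoly_th, ← mapZ, map_dvd_map _ (algebraMap ℤ ℚ).injective_int monZ] at h1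
  obtain ⟨q, rfl⟩ := h1
  rw [map_mul, map_sub, map_pow, aeval_X, aeval_C, hr]
  simp

/-- logarithms of quotients that are units at a given root -/
def US {F : Type} [Field F] (r : F) (hr : r ^ 6 = 2) : AddSubgroup ℝ where
  carrier := {t | ∃ N D : ℤ[X], aeval r N ≠ 0 ∧ aeval r D ≠ 0 ∧
    t = Real.log (aeval th N) - Real.log (aeval th D)}
  add_mem' := by
    rintro _ _ ⟨N, D, hN, hD, rfl⟩ ⟨N', D', hN', hD', rfl⟩
    refine ⟨N * N', D * D', by simp [hN, hN'], by simp [hD, hD'], ?_⟩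
    rw [map_mul, map_mul,
      Real.log_mul (fun h => hN (transfer r hr _ h)) (fun h => hN' (transfer r hr _ h)),
      Real.log_mul (fun h => hD (transfer r hr _ h)) (fun h => hD' (transfer r hr _ h))]
    ring
  zero_mem' := ⟨1, 1, by simp, by simp, by simp⟩
  neg_mem' := by
    rintro _ ⟨N, D, hN, hD, rfl⟩
    exact ⟨D, N, hD, hN, by ring⟩

theorem US_nat {F : Type} [Field F] (r : F) (hr : r ^ 6 = 2) (N0 D0 : ℤ[X])
    (h0 : aeval r N0 = 0) (h1 : aeval r D0 ≠ 0) (h2 : aeval th N0 ≠ 0) (k : ℕ)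
    (hk : (k : ℝ) * (Real.log (aeval th N0) - Real.log (aeval th D0)) ∈ US r hr) : k = 0 := by
  by_contra hne
  obtain ⟨N, D, hN, hD, e⟩ := hk
  have hN' : aeval th N ≠ 0 := fun h => hN (transfer r hr _ h)
  have hD' : aeval th D ≠ 0 := fun h => hD (transfer r hr _ h)
  have h1' : aeval th D0 ≠ 0 := fun h => h1 (transfer r hr _ h)
  have e2 : Real.log (aeval th (N0 ^ k * D)) = Real.log (aeval th (N * D0 ^ k)) := by
    rw [map_mul, map_mul, map_pow, map_pow, Real.log_mul (pow_ne_zero _ h2) hD',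
      Real.log_mul hN' (pow_ne_zero _ h1'), Real.log_pow, Real.log_pow]
    linarith
  have a1 : aeval th (N0 ^ k * D) ≠ 0 := by simp [h2, hD']
  have a2 : aeval th (N * D0 ^ k) ≠ 0 := by simp [hN', h1']
  have e3 : |aeval th (N0 ^ k * D)| = |aeval th (N * D0 ^ k)| := by
    rw [← Real.log_abs, ← Real.log_abs (aeval th (N * D0 ^ k))] at e2
    exact Real.log_injOn_pos (abs_pos.mpr a1) (abs_pos.mpr a2) e2
  have e4 : aeval th ((N0 ^ k * D) ^ 2 - (N * D0 ^ k) ^ 2) = 0 := by
    rw [map_sub, map_pow, map_pow (aeval th) (N * D0 ^ k), sub_eq_zero, sq_eq_sq_iff_abs_eq_abs]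
    exact e3
  have e5 := transfer r hr _ e4
  simp [h0, hne, hN, h1] at e5

theorem US_int {F : Type} [Field F] (r : F) (hr : r ^ 6 = 2) (N0 D0 : ℤ[X])
    (h0 : aeval r N0 = 0) (h1 : aeval r D0 ≠ 0) (h2 : aeval th N0 ≠ 0) (k : ℤ)
    (hk : (k : ℝ) * (Real.log (aeval th N0) - Real.log (aeval th D0)) ∈ US r hr) : k = 0 := by
  obtain ⟨n, rfl | rfl⟩ := Int.eq_nat_or_neg k
  · rw [US_nat r hr N0 D0 h0 h1 h2 n (by simpa using hk)]
    rfl
  · have := (US r hr).neg_mem hk
    rw [US_nat r hr N0 D0 h0 h1 h2 n (by simpa using this)]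
    rfl

/-- numerators -/
noncomputable def NN (a s : ℤ) : ℤ[X] := (C a + C s * X) ^ 2
/-- denominators -/
noncomputable def DD (a s : ℤ) : ℤ[X] := C a ^ 2 - C a * C s * X + X ^ 2
/-- the four basic logarithms -/
noncomputable def al (a s : ℤ) : ℝ := Real.log (aeval th (NN a s)) - Real.log (aeval th (DD a s))

theorem al_mem {F : Type} [Field F] (r : F) (hr : r ^ 6 = 2) (a s : ℤ) (k : ℤ)
    (h1 : (a : F) + s * r ≠ 0) (h2 : (a : F) ^ 2 - a * s * r + r ^ 2 ≠ 0) :
    (k : ℝ) * al a s ∈ US r hr := by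
  rw [← zsmul_eq_mul]
  refine (US r hr).zsmul_mem ⟨NN a s, DD a s, ?_, ?_, rfl⟩ _
  · simpa [NN] using h1
  · simpa [DD] using h2

theorem al_zero {F : Type} [Field F] (r : F) (hr : r ^ 6 = 2) (a s : ℤ) (k : ℤ)
    (h1 : (a : F) + s * r = 0) (h2 : (a : F) ^ 2 - a * s * r + r ^ 2 ≠ 0)
    (h3 : (a : ℝ) + s * th ≠ 0) (hk : (k : ℝ) * al a s ∈ US r hr) : k = 0 := by
  refine US_int r hr (NN a s) (DD a s) ?_ ?_ ?_ k hk
  · simpa [NN] using h1
  · simpa [DD] using h2
  · simpa [NN] using h3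

instance f31 : Fact (Nat.Prime 31) := ⟨by norm_num⟩
instance f727 : Fact (Nat.Prime 727) := ⟨by norm_num⟩

theorem indep_int (n1 n2 n3 n4 : ℤ)
    (h : n1 * al 2 1 + n2 * al 2 (-1) + n3 * al 3 1 + n4 * al 3 (-1) = 0) :
    n1 = 0 ∧ n2 = 0 ∧ n3 = 0 ∧ n4 = 0 := by
  have t1 := th_pos
  have t2 := th_lt
  refine ⟨?_, ?_, ?_, ?_⟩
  · have hr : (29 : ZMod 31) ^ 6 = 2 := by decide +kernel
    refine al_zero _ hr 2 1 n1 (by decide +kernel) (by decide +kernel) (by push_cast; linarith) ?_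
    have e : (n1 : ℝ) * al 2 1 = -(n2 * al 2 (-1) + n3 * al 3 1 + n4 * al 3 (-1)) := by linarith
    rw [e]
    exact neg_mem (add_mem (add_mem (al_mem _ hr _ _ _ (by decide +kernel) (by decide +kernel))
      (al_mem _ hr _ _ _ (by decide +kernel) (by decide +kernel)))
      (al_mem _ hr _ _ _ (by decide +kernel) (by decide +kernel)))
  · have hr : (2 : ZMod 31) ^ 6 = 2 := by decide +kernel
    refine al_zero _ hr 2 (-1) n2 (by decide +kernel) (by decide +kernel) (by push_cast; linarith) ?_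
    have e : (n2 : ℝ) * al 2 (-1) = -(n1 * al 2 1 + n3 * al 3 1 + n4 * al 3 (-1)) := by linarith
    rw [e]
    exact neg_mem (add_mem (add_mem (al_mem _ hr _ _ _ (by decide +kernel) (by decide +kernel))
      (al_mem _ hr _ _ _ (by decide +kernel) (by decide +kernel)))
      (al_mem _ hr _ _ _ (by decide +kernel) (by decide +kernel)))
  · have hr : (724 : ZMod 727) ^ 6 = 2 := by decide +kernel
    refine al_zero _ hr 3 1 n3 (by decide +kernel) (by decide +kernel) (by push_cast; linarith) ?_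
    have e : (n3 : ℝ) * al 3 1 = -(n1 * al 2 1 + n2 * al 2 (-1) + n4 * al 3 (-1)) := by linarith
    rw [e]
    exact neg_mem (add_mem (add_mem (al_mem _ hr _ _ _ (by decide +kernel) (by decide +kernel))
      (al_mem _ hr _ _ _ (by decide +kernel) (by decide +kernel)))
      (al_mem _ hr _ _ _ (by decide +kernel) (by decide +kernel)))
  · have hr : (3 : ZMod 727) ^ 6 = 2 := by decide +kernel
    refine al_zero _ hr 3 (-1) n4 (by decide +kernel) (by decide +kernel) (by push_cast; linarith) ?_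
    have e : (n4 : ℝ) * al 3 (-1) = -(n1 * al 2 1 + n2 * al 2 (-1) + n3 * al 3 1) := by linarith
    rw [e]
    exact neg_mem (add_mem (add_mem (al_mem _ hr _ _ _ (by decide +kernel) (by decide +kernel))
      (al_mem _ hr _ _ _ (by decide +kernel) (by decide +kernel)))
      (al_mem _ hr _ _ _ (by decide +kernel) (by decide +kernel)))

/-- first kind of logarithm -/
noncomputable def xi (a : ℤ) : ℝ := (al a 1 + al a (-1)) / 2
/-- second kind of logarithm -/
noncomputable def eta (a : ℤ) : ℝ := (al a 1 - al a (-1)) / 2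

theorem indep : LinearIndependent ℚ ![eta 2, eta 3, -xi 2, -xi 3] := by
  rw [← LinearIndependent.iff_fractionRing ℤ ℚ, Fintype.linearIndependent_iff]
  intro g hg
  simp only [Fin.sum_univ_four, Matrix.cons_val_zero, Matrix.cons_val_one, Matrix.cons_val,
    zsmul_eq_mul, xi, eta] at hg
  obtain ⟨a, b, c, d⟩ := indep_int (g 0 - g 2) (-g 0 - g 2) (g 1 - g 3) (-g 1 - g 3)
    (by push_cast; linarith)
  intro i
  fin_cases i <;> simp <;> omega

end Pool.Agent.H.MP_7de521_nt
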