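import Mathlib
import Pool.Agent.H.MP_7de521_nt.Ind
import Pool.Agent.H.MP_7de521_nt.Gen

set_option autoImplicit false

namespace Pool.Agent.H.MP_7de521_nt

open Polynomial NumberField NumberField.InfinitePlace NumberField.mixedEmbedding

/-- a primitive sixth root of unity -/
noncomputable def z : ℂ := ⟨1 / 2, Real.sqrt 3 / 2⟩

theorem s3 : Real.sqrt 3 * Real.sqrt 3 = 3 := Real.mul_self_sqrt (by norm_num)

theorem z_sq : z ^ 2 - z + 1 = 0 := by
  have := s3
  apply Complex.ext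
  · simp [z, pow_two]
    linarith
  · simp [z, pow_two]
    ring

theorem z2 : z ^ 2 = -1 + 1 * z := by linear_combination z_sq
theorem z3 : z ^ 3 = -1 + 0 * z := by linear_combination (z + 1) * z_sq
theorem z4 : z ^ 4 = 0 + (-1) * z := by linear_combination z * (z + 1) * z_sq
theorem z5 : z ^ 5 = 1 + (-1) * z := by linear_combination (z ^ 3 + z ^ 2 - 1) * z_sq
theorem z6 : z ^ 6 = 1 := by linear_combination (z ^ 3 - 1) * (z + 1) * z_sq

theorem nrm (a u v : ℝ) : ‖(a : ℂ) + (u + v * z) * th‖ ^ 2 =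
    (a + u * th) ^ 2 + (a + u * th) * (v * th) + (v * th) ^ 2 := by
  rw [Complex.sq_norm, Complex.normSq_apply]
  simp [z]
  linear_combination (v * th) ^ 2 / 4 * s3

/-- logarithms of the conjugates -/
noncomputable def XX (a : ℤ) (m : ℕ) : ℝ := Real.log ‖(a : ℂ) + z ^ m * th‖

theorem XX_mod (a : ℤ) (m : ℕ) : XX a m = XX a (m % 6) := by
  unfold XX
  conv_lhs => rw [← Nat.div_add_mod m 6, pow_add, pow_mul, z6, one_pow, one_mul]

theorem XX_form (a : ℤ) (m : ℕ) (u v : ℝ) (h : z ^ m = u + v * z) :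
    2 * XX a m = Real.log ((a + u * th) ^ 2 + (a + u * th) * (v * th) + (v * th) ^ 2) := by
  rw [← nrm, Real.log_pow, XX, h]
  simp

theorem XX5 (a : ℤ) : XX a 5 = XX a 1 := by
  have h1 := XX_form a 5 1 (-1) (by rw [z5]; simp)
  have h2 := XX_form a 1 0 1 (by simp)
  have : ((a : ℝ) + 1 * th) ^ 2 + (a + 1 * th) * (-1 * th) + (-1 * th) ^ 2 =
      (a + 0 * th) ^ 2 + (a + 0 * th) * (1 * th) + (1 * th) ^ 2 := by ring
  rw [this] at h1
  linarith

theorem XX4 (a : ℤ) : XX a 4 = XX a 2 := by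
  have h1 := XX_form a 4 0 (-1) (by rw [z4]; simp)
  have h2 := XX_form a 2 (-1) 1 (by rw [z2]; simp)
  have : ((a : ℝ) + 0 * th) ^ 2 + (a + 0 * th) * (-1 * th) + (-1 * th) ^ 2 =
      (a + -1 * th) ^ 2 + (a + -1 * th) * (1 * th) + (1 * th) ^ 2 := by ring
  rw [this] at h1
  linarith

theorem al_pos (a : ℤ) : al a 1 = 2 * XX a 0 - 2 * XX a 2 := by
  rw [XX_form a 0 1 0 (by simp), XX_form a 2 (-1) 1 (by rw [z2]; simp), al]
  congr 2
  · simp [NN]
  · simp [DD]
    ring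

theorem al_neg (a : ℤ) : al a (-1) = 2 * XX a 3 - 2 * XX a 1 := by
  rw [XX_form a 3 (-1) 0 (by rw [z3]; simp), XX_form a 1 0 1 (by simp), al]
  congr 2
  · simp [NN]
  · simp [DD]

theorem xi_eq (a : ℤ) : xi a = XX a 0 + XX a 3 - XX a 1 - XX a 2 := by
  rw [xi, al_pos, al_neg]; ring

theorem eta_eq (a : ℤ) : eta a = XX a 0 - XX a 3 + XX a 1 - XX a 2 := by
  rw [eta, al_pos, al_neg]; ring

instance factQ : Fact (Irreducible (X ^ 6 - C 2 : ℚ[X])) := ⟨irrQ⟩

/-- the real sextic field -/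
abbrev K2 : Type := AdjoinRoot (X ^ 6 - C 2 : ℚ[X])

/-- its real embedding -/
noncomputable def e2 : K2 →+* ℝ :=
  AdjoinRoot.lift (algebraMap ℚ ℝ) th (by simp [th_pow])

theorem monK : (X ^ 2 - X + 1 : K2[X]).Monic := by monicity!

theorem irrK : Irreducible (X ^ 2 - X + 1 : K2[X]) := by
  have hd : (X ^ 2 - X + 1 : K2[X]).natDegree = 2 := by compute_degree!
  refine irreducible_of_degree_le_three_of_not_isRoot (by rw [hd]; decide) fun x hx => ?_
  have := congrArg e2 hx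
  simp at this
  nlinarith [sq_nonneg (e2 x - 1 / 2)]

instance factK : Fact (Irreducible (X ^ 2 - X + 1 : K2[X])) := ⟨irrK⟩

/-- the splitting field -/
abbrev KK : Type := AdjoinRoot (X ^ 2 - X + 1 : K2[X])

instance nfK : NumberField KK :=
  have : Module.Finite K2 KK := monK.finite_adjoinRoot
  NumberField.of_module_finite K2 KK

/-- the sixth root of two -/
noncomputable def T : KK := AdjoinRoot.of _ (AdjoinRoot.root _)
/-- the root of unity -/
noncomputable def Z : KK := AdjoinRoot.root _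

theorem T_pow : T ^ 6 = 2 := by
  have h : (AdjoinRoot.root (X ^ 6 - C 2 : ℚ[X])) ^ 6 = 2 := by
    have := AdjoinRoot.eval₂_root (X ^ 6 - C 2 : ℚ[X])
    simp only [eval₂_sub, eval₂_pow, eval₂_X, eval₂_C, sub_eq_zero] at this
    rw [this]
    exact map_ofNat _ 2
  rw [T, ← map_pow, h]
  exact map_ofNat _ 2

theorem Z_sq : Z ^ 2 - Z + 1 = 0 := by
  have := AdjoinRoot.eval₂_root (X ^ 2 - X + 1 : K2[X])
  simpa [Z] using this

/-- the six embeddings fixing the root of unity -/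
noncomputable def sig (k : ℕ) : KK →+* ℂ :=
  AdjoinRoot.lift (AdjoinRoot.lift (algebraMap ℚ ℂ) (z ^ k * th) (by
    have h : ((th : ℂ)) ^ 6 = 2 := by exact_mod_cast th_pow
    have h' : (z ^ k) ^ 6 = 1 := by rw [← pow_mul, mul_comm, pow_mul, z6, one_pow]
    simp [mul_pow, h, h'])) z (by simpa using z_sq)

theorem sig_T (k : ℕ) : sig k T = z ^ k * th := by
  simp [sig, T]

theorem sig_Z (k : ℕ) : sig k Z = z := by
  simp [sig, Z]

theorem classify (σ : KK →+* ℂ) :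
    ∃ s k : ℕ, (s = 1 ∨ s = 5) ∧ k < 6 ∧ σ Z = z ^ s ∧ σ T = z ^ k * th := by
  have h1 : (σ Z) ^ 2 - σ Z + 1 = 0 := by simpa using congrArg σ Z_sq
  have h2 : (σ T) ^ 6 = 2 := by rw [← map_pow, T_pow]; exact map_ofNat _ 2
  have h : ((th : ℂ)) ^ 6 = 2 := by exact_mod_cast th_pow
  have h3 : (σ Z - z ^ 1) * (σ Z - z ^ 5) = 0 := by
    rw [z5]
    linear_combination h1 - z_sq
  have h4 : (σ T - z ^ 0 * th) * (σ T - z ^ 1 * th) * (σ T - z ^ 2 * th) * (σ T - z ^ 3 * th) *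
      (σ T - z ^ 4 * th) * (σ T - z ^ 5 * th) = 0 := by
    rw [z2, z3, z4, z5]
    linear_combination h2 - h + ((σ T) ^ 2 - (th : ℂ) ^ 2) * (-(2 : ℂ) * (σ T) ^ 2 * (th : ℂ) ^ 2 +
      (th : ℂ) ^ 4 * (z ^ 2 - z - 1)) * z_sq
  have h5 : ∃ k < 6, σ T = z ^ k * th := by
    simp only [mul_eq_zero, sub_eq_zero] at h4
    rcases h4 with ((((h | h) | h) | h) | h) | h
    exacts [⟨0, by norm_num, h⟩, ⟨1, by norm_num, h⟩, ⟨2, by norm_num, h⟩, ⟨3, by norm_num, h⟩,
      ⟨4, by norm_num, h⟩, ⟨5, by norm_num, h⟩]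
  obtain ⟨k, hk, h5⟩ := h5
  rcases mul_eq_zero.mp h3 with h | h
  · exact ⟨1, k, Or.inl rfl, hk, sub_eq_zero.mp h, h5⟩
  · exact ⟨5, k, Or.inr rfl, hk, sub_eq_zero.mp h, h5⟩

theorem not_real (w : InfinitePlace KK) : ¬ IsReal w := by
  rw [isReal_iff, ComplexEmbedding.isReal_iff]
  intro h
  have h1 : (w.embedding Z) ^ 2 - w.embedding Z + 1 = 0 := by
    simpa using congrArg w.embedding Z_sq
  have h2 := congrArg (fun f : KK →+* ℂ => f Z) h
  simp only [ComplexEmbedding.conjugate_coe_eq] at h2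
  obtain ⟨x, hx⟩ := Complex.conj_eq_iff_real.mp h2
  rw [hx] at h1
  have : x ^ 2 - x + 1 = 0 := by exact_mod_cast h1
  nlinarith [sq_nonneg (x - 1 / 2)]

instance emptyReal : IsEmpty {w : InfinitePlace KK // IsReal w} := ⟨fun w => not_real w.1 w.2⟩

/-- the complex places -/
noncomputable def pl (k : Fin 6) : {w : InfinitePlace KK // IsComplex w} :=
  ⟨InfinitePlace.mk (sig k), not_isReal_iff_isComplex.mp (not_real _)⟩

theorem G_ne (a : ℤ) (ha : 2 ≤ a) (i : ℕ) : (a : KK) + Z ^ i * T ≠ 0 := by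
  intro h
  have h1 := congrArg (sig 0) h
  simp only [map_add, map_mul, map_pow, sig_T, sig_Z, map_intCast, map_zero, pow_zero,
    one_mul] at h1
  have h2 : (a : ℂ) ^ 6 = (z ^ i * th) ^ 6 := by
    rw [eq_neg_of_add_eq_zero_left h1]
    ring
  have h3 : ((th : ℂ)) ^ 6 = 2 := by exact_mod_cast th_pow
  rw [mul_pow, ← pow_mul, mul_comm i 6, pow_mul, z6, one_pow, one_mul, h3] at h2
  have h4 : a ^ 6 = 2 := by exact_mod_cast h2
  have := pow_le_pow_left₀ (by norm_num) ha 6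
  omega

/-- basic units -/
noncomputable def U (a : ℤ) (ha : 2 ≤ a) (i : ℕ) : KKˣ := Units.mk0 _ (G_ne a ha i)

/-- the embedding of the multiplicative group -/
noncomputable abbrev emb : KKˣ →* (mixedSpace KK)ˣ := Units.map (mixedEmbedding KK).toMonoidHom

theorem lg_emb (g : KKˣ) (w : {w : InfinitePlace KK // IsComplex w}) :
    lg (emb g) w = Real.log (w.1 g) := by
  simp [lg, norm_embedding_eq]

theorem lg_U (w : {w : InfinitePlace KK // IsComplex w}) : ∃ s k : ℕ, (s = 1 ∨ s = 5) ∧ k < 6 ∧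
    ∀ a ha i, lg (emb (U a ha i)) w = XX a (s * i + k) := by
  obtain ⟨s, k, h1, h2, h3, h4⟩ := classify w.1.embedding
  refine ⟨s, k, h1, h2, fun a ha i => ?_⟩
  rw [lg_emb, ← norm_embedding_eq, XX]
  simp only [U, Units.val_mk0, map_add, map_mul, map_pow, h3, h4, map_intCast]
  rw [pow_add, pow_mul, mul_assoc]

theorem lg_U_pl (k : Fin 6) (a : ℤ) (ha : 2 ≤ a) (i : ℕ) :
    lg (emb (U a ha i)) (pl k) = XX a (i + k) := by
  rw [lg_emb, XX]
  simp only [pl, InfinitePlace.apply, U, Units.val_mk0, map_add, map_mul, map_pow, sig_T, sig_Z,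
    map_intCast]
  rw [pow_add, mul_assoc]

end Pool.Agent.H.MP_7de521_nt
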