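import Mathlib
import Pool.Agent.H.MP_7de521_nt.Fld

set_option autoImplicit false

namespace Pool.Agent.H.MP_7de521_nt

open Polynomial NumberField NumberField.InfinitePlace NumberField.mixedEmbedding

/-- first element of the first kind -/
noncomputable def e1 (a : ℤ) (ha : 2 ≤ a) : KKˣ := U a ha 0 * U a ha 3 * (U a ha 1 * U a ha 4)⁻¹
/-- second element of the first kind -/
noncomputable def e2' (a : ℤ) (ha : 2 ≤ a) : KKˣ := U a ha 0 * U a ha 3 * (U a ha 2 * U a ha 5)⁻¹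
/-- first element of the second kind -/
noncomputable def f1 (a : ℤ) (ha : 2 ≤ a) : KKˣ := U a ha 0 * U a ha 1 * (U a ha 3 * U a ha 4)⁻¹
/-- second element of the second kind -/
noncomputable def f2 (a : ℤ) (ha : 2 ≤ a) : KKˣ := U a ha 1 * U a ha 2 * (U a ha 4 * U a ha 5)⁻¹

theorem XX_tab (a : ℤ) (m : ℕ) : XX a m =
    if m % 6 = 0 then XX a 0 else if m % 6 = 3 then XX a 3 else
    if m % 6 = 1 ∨ m % 6 = 5 then XX a 1 else XX a 2 := by
  rw [XX_mod a m]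
  have : m % 6 < 6 := Nat.mod_lt _ (by norm_num)
  generalize m % 6 = j at this ⊢
  interval_cases j <;> simp [XX5, XX4]

theorem vals (w : {w : InfinitePlace KK // IsComplex w}) (s k : ℕ) (hs : s = 1 ∨ s = 5) (hk : k < 6)
    (h : ∀ a ha i, lg (emb (U a ha i)) w = XX a (s * i + k)) :
    ∃ c1 c2 d1 d2 : ℝ, |c1| ≤ 1 ∧ |c2| ≤ 1 ∧ |d1| ≤ 1 ∧ |d2| ≤ 1 ∧
      ∀ a ha, lg (emb (e1 a ha)) w = xi a * c1 ∧ lg (emb (e2' a ha)) w = xi a * c2 ∧
        lg (emb (f1 a ha)) w = eta a * d1 ∧ lg (emb (f2 a ha)) w = eta a * d2 := by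
  simp only [e1, e2', f1, f2, map_mul, map_inv, lg_mul, lg_inv, Pi.add_apply, Pi.neg_apply, h,
    xi_eq, eta_eq]
  rcases hs with rfl | rfl
  · refine ⟨![1, 0, -1, 1, 0, -1] ⟨k, hk⟩, ![1, -1, 0, 1, -1, 0] ⟨k, hk⟩,
      ![1, 0, -1, -1, 0, 1] ⟨k, hk⟩, ![0, -1, -1, 0, 1, 1] ⟨k, hk⟩, ?_, ?_, ?_, ?_, fun a _ => ?_⟩
    · interval_cases k <;> simp
    · interval_cases k <;> simp
    · interval_cases k <;> simp
    · interval_cases k <;> simp
    · simp only [XX_tab a (_ + _)]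
      refine ⟨?_, ?_, ?_, ?_⟩ <;> interval_cases k <;> simp <;> ring
  · refine ⟨![1, -1, 0, 1, -1, 0] ⟨k, hk⟩, ![1, 0, -1, 1, 0, -1] ⟨k, hk⟩,
      ![1, 1, 0, -1, -1, 0] ⟨k, hk⟩, ![0, 1, 1, 0, -1, -1] ⟨k, hk⟩, ?_, ?_, ?_, ?_, fun a _ => ?_⟩
    · interval_cases k <;> simp
    · interval_cases k <;> simp
    · interval_cases k <;> simp
    · interval_cases k <;> simp
    · simp only [XX_tab a (_ + _)]
      refine ⟨?_, ?_, ?_, ?_⟩ <;> interval_cases k <;> simp <;> ring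

theorem vals_pl (k : Fin 6) (a : ℤ) (ha : 2 ≤ a) :
    lg (emb (e1 a ha)) (pl k) = xi a * ![1, 0, -1, 1, 0, -1] k ∧
    lg (emb (e2' a ha)) (pl k) = xi a * ![1, -1, 0, 1, -1, 0] k ∧
    lg (emb (f1 a ha)) (pl k) = eta a * ![1, 0, -1, -1, 0, 1] k ∧
    lg (emb (f2 a ha)) (pl k) = eta a * ![0, -1, -1, 0, 1, 1] k := by
  simp only [e1, e2', f1, f2, map_mul, map_inv, lg_mul, lg_inv, Pi.add_apply, Pi.neg_apply,
    lg_U_pl, xi_eq, eta_eq]
  simp only [XX_tab a (_ + _)]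
  refine ⟨?_, ?_, ?_, ?_⟩ <;> fin_cases k <;> simp <;> ring

theorem h22 : (2 : ℤ) ≤ 2 := le_rfl
theorem h23 : (2 : ℤ) ≤ 3 := by norm_num

/-- generators -/
noncomputable def g11 : KKˣ := e1 2 h22 * f1 2 h22
/-- generators -/
noncomputable def g12 : KKˣ := e1 3 h23 * f2 2 h22
/-- generators -/
noncomputable def g21 : KKˣ := e2' 2 h22 * f1 3 h23
/-- generators -/
noncomputable def g22 : KKˣ := e2' 3 h23 * f2 3 h23

/-- the coefficient table of the four coordinate forms -/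
def nn : Fin 4 → Fin 6 → ℤ :=
  ![![0, 0, -1, 0, 0, -1], ![0, -1, 0, 0, -1, 0], ![1, 0, 0, -1, 0, 0], ![0, -1, 0, 0, 1, 0]]

/-- the group -/
noncomputable def LL : Subgroup KKˣ := Subgroup.closure {g11, g12, g21, g22}

theorem LL_fg : LL.FG := (Subgroup.fg_iff _).mpr ⟨_, rfl, Set.toFinite _⟩

theorem form_zero (x : (mixedSpace KK)ˣ) (hx : x ∈ LL.map emb) :
    ∑ j, ![eta 2, eta 3, -xi 2, -xi 3] j * ∑ k, (nn j k : ℝ) * lg x (pl k) = 0 := by
  obtain ⟨g, hg, rfl⟩ := hx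
  induction hg using Subgroup.closure_induction with
  | mem g hg =>
    simp only [Set.mem_insert_iff, Set.mem_singleton_iff] at hg
    rcases hg with rfl | rfl | rfl | rfl <;>
    · simp only [g11, g12, g21, g22, map_mul, lg_mul, Pi.add_apply, vals_pl, Fin.sum_univ_four,
        Fin.sum_univ_six, nn]
      simp
      ring
  | one => simp [lg_one]
  | mul a b _ _ ha hb =>
    simp only [map_mul, lg_mul, Pi.add_apply, mul_add, Finset.sum_add_distrib, ha, hb, add_zero]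
  | inv a _ ha =>
    simp only [map_inv, lg_inv, Pi.neg_apply, mul_neg, Finset.sum_neg_distrib, ha, neg_zero]

/-- the sequence with bounded logarithms -/
noncomputable def xs (n : ℕ) : KKˣ :=
  g11 ^ (n : ℤ) * g12 ^ ⌊-(n * xi 2 / xi 3)⌋ * g21 ^ ⌊-(n * eta 2 / eta 3)⌋ *
    g22 ^ ⌊n * eta 2 * xi 2 / (eta 3 * xi 3)⌋

theorem xs_mem (n : ℕ) : xs n ∈ LL := by
  refine mul_mem (mul_mem (mul_mem (zpow_mem ?_ _) (zpow_mem ?_ _)) (zpow_mem ?_ _)) (zpow_mem ?_ _)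
  all_goals exact Subgroup.subset_closure (by simp)

theorem xi3 : xi 3 ≠ 0 := by simpa using indep.ne_zero 3
theorem eta3 : eta 3 ≠ 0 := by simpa using indep.ne_zero 1

theorem bd2 (c d x : ℝ) (hc : |c| ≤ 1) (hd : |d| ≤ 1) : |c * d * x| ≤ |x| := by
  rw [abs_mul, abs_mul]
  have := mul_le_one₀ hc (abs_nonneg d) hd
  exact mul_le_of_le_one_left (abs_nonneg x) this

theorem xs_bd (n : ℕ) (w : {w : InfinitePlace KK // IsComplex w}) :
    |lg (emb (xs n)) w| ≤ 2 * |xi 3| + |xi 2| + 2 * |eta 3| + |eta 2| := by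
  obtain ⟨s, k, hs, hk, h⟩ := lg_U w
  obtain ⟨c1, c2, d1, d2, b1, b2, b3, b4, hv⟩ := vals w s k hs hk h
  have fr : ∀ t : ℝ, |Int.fract t| ≤ 1 := fun t => by
    rw [abs_of_nonneg (Int.fract_nonneg t)]
    exact (Int.fract_lt_one t).le
  have e : lg (emb (xs n)) w =
      -(c1 * Int.fract (-(n * xi 2 / xi 3)) * xi 3) - c2 * Int.fract (-(n * eta 2 / eta 3)) * xi 2
      - c2 * Int.fract (n * eta 2 * xi 2 / (eta 3 * xi 3)) * xi 3
      - d1 * Int.fract (-(n * eta 2 / eta 3)) * eta 3 - d2 * Int.fract (-(n * xi 2 / xi 3)) * eta 2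
      - d2 * Int.fract (n * eta 2 * xi 2 / (eta 3 * xi 3)) * eta 3 := by
    simp only [xs, g11, g12, g21, g22, map_mul, map_zpow, lg_mul, lg_zpow, Pi.add_apply,
      Pi.smul_apply, smul_eq_mul, hv, Int.fract, Int.cast_natCast]
    have := xi3
    have := eta3
    field_simp
    ring
  rw [e, abs_le]
  have a1 := abs_le.mp (bd2 _ _ (xi 3) b1 (fr (-(n * xi 2 / xi 3))))
  have a2 := abs_le.mp (bd2 _ _ (xi 2) b2 (fr (-(n * eta 2 / eta 3))))
  have a3 := abs_le.mp (bd2 _ _ (xi 3) b2 (fr (n * eta 2 * xi 2 / (eta 3 * xi 3))))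
  have a4 := abs_le.mp (bd2 _ _ (eta 3) b3 (fr (-(n * eta 2 / eta 3))))
  have a5 := abs_le.mp (bd2 _ _ (eta 2) b4 (fr (-(n * xi 2 / xi 3))))
  have a6 := abs_le.mp (bd2 _ _ (eta 3) b4 (fr (n * eta 2 * xi 2 / (eta 3 * xi 3))))
  constructor <;> linarith [a1.1, a1.2, a2.1, a2.2, a3.1, a3.2, a4.1, a4.2, a5.1, a5.2, a6.1, a6.2]

theorem xs_form (n : ℕ) : ∑ k, (nn 0 k : ℝ) * lg (emb (xs n)) (pl k) =
    2 * (n * xi 2 + ⌊-(n * xi 2 / xi 3)⌋ * xi 3) := by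
  simp only [xs, g11, g12, g21, g22, map_mul, map_zpow, lg_mul, lg_zpow, Pi.add_apply,
    Pi.smul_apply, smul_eq_mul, vals_pl, Fin.sum_univ_six, nn]
  simp
  ring

theorem xs_ne (i i' : ℕ) (h : i ≠ i') : ∃ j, ∑ k, (nn j k : ℝ) * lg (emb (xs i)) (pl k) ≠
    ∑ k, (nn j k : ℝ) * lg (emb (xs i')) (pl k) := by
  refine ⟨0, fun e => h ?_⟩
  rw [xs_form, xs_form] at e
  have hi := indep
  rw [← LinearIndependent.iff_fractionRing ℤ ℚ, Fintype.linearIndependent_iff] at hi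
  have := hi ![0, 0, (i : ℤ) - i', ⌊-(i * xi 2 / xi 3)⌋ - ⌊-(i' * xi 2 / xi 3)⌋] (by
    simp only [Fin.sum_univ_four, zsmul_eq_mul]
    simp
    linarith) 2
  simp at this
  omega

theorem main {ι : Type} (b : Module.Basis ι ℝ (mixedSpace KK)) (S : Set (MvPolynomial ι ℝ))
    (B : Subgroup (mixedSpace KK)ˣ)
    (hB : ∀ y, y ∈ B ↔ ∀ P ∈ S, MvPolynomial.eval (fun i => b.repr y.val i) P = 0) :
    ¬ ((Subgroup.connectedComponentOfOne (LL.map emb).topologicalClosure).map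
        (LL.map emb).topologicalClosure.subtype ≤ B ∧
      (((Subgroup.connectedComponentOfOne (LL.map emb).topologicalClosure).map
        (LL.map emb).topologicalClosure.subtype).subgroupOf B).FiniteIndex) := by
  classical
  exact general pl nn _ indep (LL.map emb) form_zero (fun n => emb (xs n))
    (fun n => Subgroup.mem_map_of_mem _ (xs_mem n)) _ xs_bd xs_ne b S B hB

end Pool.Agent.H.MP_7de521_nt
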